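import Mathlib

set_option autoImplicit false

open Set Filter Topology TopologicalSpace

namespace Pool.Agent.Results.MP_091b66_gt.Main

/-- nonempty closed subsets -/
def CL (X : Type) [MetricSpace X] : Type := {A : Set X // IsClosed A ∧ A.Nonempty}

/-- the Wijsman topology -/
noncomputable instance wijsman (X : Type) [MetricSpace X] : TopologicalSpace (CL X) :=
  ⨅ x : X, TopologicalSpace.induced (fun A : CL X => Metric.infDist x A.1) inferInstance

def PiBase {Y : Type} [TopologicalSpace Y] (P : Set (Set Y)) : Prop :=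
  (∀ V ∈ P, IsOpen V ∧ V.Nonempty) ∧ ∀ U : Set Y, IsOpen U → U.Nonempty → ∃ V ∈ P, V ⊆ U

def QuasiRegular (Y : Type) [TopologicalSpace Y] : Prop :=
  ∀ U : Set Y, IsOpen U → U.Nonempty → ∃ V : Set Y, IsOpen V ∧ V.Nonempty ∧ closure V ⊆ U

def Pseudocomplete (Y : Type) [TopologicalSpace Y] : Prop :=
  QuasiRegular Y ∧ ∃ P : ℕ → Set (Set Y), (∀ n, PiBase (P n)) ∧
    ∀ V : ℕ → Set Y, (∀ n, V n ∈ P n) → (∀ n, closure (V (n + 1)) ⊆ V n) → (⋂ n, V n).Nonempty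

def Subcompact (Y : Type) [TopologicalSpace Y] : Prop :=
  RegularSpace Y ∧ ∃ B : Set (Set Y), IsTopologicalBasis B ∧
    ∀ F ⊆ B, F.Nonempty → (∀ U ∈ F, U.Nonempty) → (∀ U ∈ F, ∀ V ∈ F, ∃ W ∈ F, W ⊆ U ∩ V) →
      (∀ U ∈ F, ∃ V ∈ F, closure V ⊆ U) → (⋂₀ F).Nonempty

def BaseCompact (Y : Type) [TopologicalSpace Y] : Prop :=
  RegularSpace Y ∧ ∃ B : Set (Set Y), IsTopologicalBasis B ∧
    ∀ C ⊆ B, (∀ t ⊆ C, t.Finite → (⋂₀ t).Nonempty) → (⋂ U ∈ C, closure U).Nonempty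

section General

variable {X : Type} [MetricSpace X]

theorem cont (x : X) : Continuous fun A : CL X => Metric.infDist x A.1 :=
  continuous_iInf_dom (i := x) continuous_induced_dom

theorem reg : RegularSpace (CL X) := regularSpace_iInf fun _ => regularSpace_induced _

theorem haus : T2Space (CL X) := by
  refine T2Space.of_injective_continuous
    (f := fun (A : CL X) (x : X) => Metric.infDist x A.1) ?_ (continuous_pi cont)
  intro A B h
  apply Subtype.ext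
  ext x
  have := congrFun h x
  rw [A.2.1.mem_iff_infDist_zero A.2.2, B.2.1.mem_iff_infDist_zero B.2.2]
  exact Eq.congr_left this

def Hit (V : Set X) : Set (CL X) := {A | (A.1 ∩ V).Nonempty}

def W (P : Set (Set X)) (c : Set (X × ℝ)) : Set (CL X) :=
  {A | (∀ V ∈ P, A ∈ Hit V) ∧ ∀ p ∈ c, p.2 < Metric.infDist p.1 A.1}

def K (c : Set (X × ℝ)) : Set X := {y | ∀ p ∈ c, p.2 < dist p.1 y}

def Adm (B P : Set (Set X)) (c : Set (X × ℝ)) : Prop :=
  P.Finite ∧ P.Nonempty ∧ c.Finite ∧ P ⊆ B ∧ ∀ V ∈ P, IsOpen V ∧ V.Nonempty ∧ V ⊆ K c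

theorem hit_open {V : Set X} (hV : IsOpen V) : IsOpen (Hit V) := by
  rw [isOpen_iff_mem_nhds]
  rintro A ⟨a, ha, haV⟩
  obtain ⟨ε, hε, h⟩ := Metric.isOpen_iff.1 hV a haV
  refine mem_of_superset ((isOpen_lt (cont a) continuous_const).mem_nhds
    (show Metric.infDist a A.1 < ε by rw [Metric.infDist_zero_of_mem ha]; exact hε)) ?_
  intro B hB
  obtain ⟨y, hy, hd⟩ := (Metric.infDist_lt_iff B.2.2).1 hB
  exact ⟨y, hy, h (by rw [Metric.mem_ball, dist_comm]; exact hd)⟩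

theorem W_open {P : Set (Set X)} {c : Set (X × ℝ)} (hP : P.Finite) (hc : c.Finite)
    (ho : ∀ V ∈ P, IsOpen V) : IsOpen (W P c) := by
  have : W P c = (⋂ V ∈ P, Hit V) ∩ ⋂ p ∈ c, {A : CL X | p.2 < Metric.infDist p.1 A.1} := by
    ext A; simp [W]
  rw [this]
  exact (hP.isOpen_biInter fun V hV => hit_open (ho V hV)).inter
    (hc.isOpen_biInter fun p _ => isOpen_lt continuous_const (cont p.1))

theorem K_open {c : Set (X × ℝ)} (hc : c.Finite) : IsOpen (K c) := by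
  have : K c = ⋂ p ∈ c, {y : X | p.2 < dist p.1 y} := by ext y; simp [K]
  rw [this]
  exact hc.isOpen_biInter fun p _ => isOpen_lt continuous_const (continuous_const.dist continuous_id)

theorem memK {c : Set (X × ℝ)} {A : CL X} (h : ∀ p ∈ c, p.2 < Metric.infDist p.1 A.1) :
    A.1 ⊆ K c := fun _ hy p hp => (h p hp).trans_le (Metric.infDist_le_dist_of_mem hy)

theorem fin_mem {P : Set (Set X)} {c : Set (X × ℝ)} {A : CL X} (hA : A.1.Finite) (hK : A.1 ⊆ K c)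
    (hP : ∀ V ∈ P, A ∈ Hit V) : A ∈ W P c := by
  refine ⟨hP, fun p hp => ?_⟩
  obtain ⟨y, hy, h⟩ := hA.isCompact.exists_infDist_eq_dist A.2.2 p.1
  rw [h]
  exact hK hy p hp

theorem base {A : CL X} {U : Set (CL X)} (hU : U ∈ 𝓝 A) : ∃ (O : Set (Set X)) (c : Set (X × ℝ)),
    O.Finite ∧ c.Finite ∧ (∀ V ∈ O, IsOpen V) ∧ A ∈ W O c ∧ W O c ⊆ U := by
  rw [wijsman, nhds_iInf] at hU
  refine iInf_sets_induct hU (p := fun U => ∃ (O : Set (Set X)) (c : Set (X × ℝ)),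
    O.Finite ∧ c.Finite ∧ (∀ V ∈ O, IsOpen V) ∧ A ∈ W O c ∧ W O c ⊆ U)
    ⟨∅, ∅, finite_empty, finite_empty, by simp, by simp [W], subset_univ _⟩ ?_
  rintro x s₁ s₂ h₁ ⟨O, c, a1, a2, a3, a4, a5⟩
  rw [nhds_induced] at h₁
  obtain ⟨N, hN, hNs⟩ := mem_comap.1 h₁
  obtain ⟨ε, hε, hb⟩ := Metric.mem_nhds_iff.1 hN
  refine ⟨insert (Metric.ball x (Metric.infDist x A.1 + ε)) O,
    insert (x, Metric.infDist x A.1 - ε) c, a1.insert _, a2.insert _, ?_, ⟨?_, ?_⟩, ?_⟩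
  · rintro V (rfl | hV)
    · exact Metric.isOpen_ball
    · exact a3 V hV
  · rintro V (rfl | hV)
    · obtain ⟨y, hy, hd⟩ := (Metric.infDist_lt_iff A.2.2).1
        (show Metric.infDist x A.1 < Metric.infDist x A.1 + ε by linarith)
      exact ⟨y, hy, by rw [Metric.mem_ball, dist_comm]; exact hd⟩
    · exact a4.1 V hV
  · rintro p (rfl | hp)
    · show Metric.infDist x A.1 - ε < Metric.infDist x A.1
      linarith
    · exact a4.2 p hp
  · intro B hB
    refine ⟨hNs (hb ?_), a5 ⟨fun V hV => hB.1 V (Or.inr hV), fun p hp => hB.2 p (Or.inr hp)⟩⟩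
    obtain ⟨y, hy, hd⟩ := hB.1 _ (Or.inl rfl)
    have b1 : Metric.infDist x A.1 - ε < Metric.infDist x B.1 := hB.2 _ (Or.inl rfl)
    have b2 := Metric.infDist_le_dist_of_mem (x := x) hy
    rw [Metric.mem_ball, dist_comm] at hd
    show dist (Metric.infDist x B.1) (Metric.infDist x A.1) < ε
    rw [Real.dist_eq, abs_lt]
    constructor <;> linarith

theorem refine_adm {A : CL X} {U : Set (CL X)} (hU : U ∈ 𝓝 A) (B : Set (Set X))
    (R : X → Set X → Prop)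
    (hB : ∀ a, ∀ O, IsOpen O → a ∈ O → ∃ V ∈ B, IsOpen V ∧ V.Nonempty ∧ V ⊆ O ∧ R a V) :
    ∃ P c, Adm B P c ∧ W P c ⊆ U ∧ (∀ V ∈ P, ∃ a ∈ A.1, R a V) ∧
      ∀ p ∈ c, p.2 < Metric.infDist p.1 A.1 := by
  obtain ⟨O, c, a1, a2, a3, a4, a5⟩ := base hU
  have : ∀ O' ∈ insert univ O, ∃ V ∈ B, IsOpen V ∧ V.Nonempty ∧ V ⊆ O' ∩ K c ∧
      ∃ a ∈ A.1, R a V := by
    intro O' hO'
    have h1 : IsOpen O' ∧ (A.1 ∩ O').Nonempty := by
      rcases hO' with rfl | hO'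
      · exact ⟨isOpen_univ, by rw [inter_univ]; exact A.2.2⟩
      · exact ⟨a3 _ hO', a4.1 _ hO'⟩
    obtain ⟨a, ha, haO⟩ := h1.2
    obtain ⟨V, b1, b2, b3, b4, b5⟩ := hB a _ (h1.1.inter (K_open a2)) ⟨haO, memK a4.2 ha⟩
    exact ⟨V, b1, b2, b3, b4, a, ha, b5⟩
  choose! g g1 g2 g3 g4 g5 using this
  refine ⟨g '' insert univ O, c, ⟨(a1.insert _).image _, ⟨_, univ, Or.inl rfl, rfl⟩, a2, ?_, ?_⟩,
    ?_, ?_, a4.2⟩
  · rintro _ ⟨O', h, rfl⟩
    exact g1 O' h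
  · rintro _ ⟨O', h, rfl⟩
    exact ⟨g2 O' h, g3 O' h, (g4 O' h).trans inter_subset_right⟩
  · intro B hB
    refine a5 ⟨fun V hV => ?_, hB.2⟩
    obtain ⟨y, hy, hyV⟩ := hB.1 _ ⟨V, Or.inr hV, rfl⟩
    exact ⟨y, hy, (g4 V (Or.inr hV) hyV).1⟩
  · rintro _ ⟨O', h, rfl⟩
    exact g5 O' h

def rng {J : Type} [Finite J] [Nonempty J] (y : J → X) : CL X :=
  ⟨range y, (finite_range y).isClosed, range_nonempty y⟩

theorem tup {J : Type} [Finite J] [Nonempty J] (y : J → X) (S : J → Set X)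
    (hy : ∀ j, y j ∈ closure (S j)) (U : Set (CL X))
    (hU : ∀ y' : J → X, (∀ j, y' j ∈ S j) → rng y' ∈ U) : rng y ∈ closure U := by
  letI := Fintype.ofFinite J
  have hc : Continuous (rng : (J → X) → CL X) := by
    refine continuous_iInf_rng.2 fun x => continuous_induced_rng.2 ?_
    refine (LipschitzWith.of_le_add fun y y' => ?_).continuous
    show Metric.infDist x (range y) ≤ Metric.infDist x (range y') + dist y y'
    rw [← sub_le_iff_le_add, Metric.le_infDist (range_nonempty y')]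
    rintro _ ⟨j, rfl⟩
    have h1 := Metric.infDist_le_dist_of_mem (x := x) (mem_range_self (f := y) j)
    have h2 := dist_le_pi_dist y y' j
    have h3 := dist_triangle_right x (y j) (y' j)
    linarith
  refine map_mem_closure hc (s := univ.pi S) ?_ fun y' h => hU y' fun j => h j trivial
  rw [closure_pi_set]
  exact fun j _ => hy j

theorem L1 {B P : Set (Set X)} {c : Set (X × ℝ)} (h : Adm B P c) {V : Set X}
    (hV : closure (W P c) ⊆ Hit V) : ∃ V' ∈ P, closure V' ⊆ V := by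
  by_contra hc
  push Not at hc
  have : ∀ j : P, ∃ y ∈ closure j.1, y ∉ V := fun j => not_subset.1 (hc j.1 j.2)
  choose y y1 y2 using this
  haveI := h.1.to_subtype
  haveI := h.2.1.to_subtype
  obtain ⟨_, ⟨j, rfl⟩, hj⟩ := hV (tup y (fun j => j.1) y1 (W P c) fun y' hy' =>
    fin_mem (finite_range _) (by
      rintro _ ⟨j, rfl⟩
      exact (h.2.2.2.2 j.1 j.2).2.2 (hy' j)) fun V hV => ⟨_, ⟨⟨V, hV⟩, rfl⟩, hy' ⟨V, hV⟩⟩)
  exact y2 j hj

theorem L1' {B P : Set (Set X)} {c : Set (X × ℝ)} (h : Adm B P c) {V : Set X}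
    (hV : W P c ⊆ Hit V) : ∃ V' ∈ P, V' ⊆ V := by
  by_contra hc
  push Not at hc
  have : ∀ j : P, ∃ y ∈ j.1, y ∉ V := fun j => not_subset.1 (hc j.1 j.2)
  choose y y1 y2 using this
  haveI := h.1.to_subtype
  haveI := h.2.1.to_subtype
  obtain ⟨_, ⟨j, rfl⟩, hj⟩ := hV (fin_mem (A := rng y) (finite_range _) (by
      rintro _ ⟨j, rfl⟩
      exact (h.2.2.2.2 j.1 j.2).2.2 (y1 j)) fun V hV => ⟨_, ⟨⟨V, hV⟩, rfl⟩, y1 ⟨V, hV⟩⟩)
  exact y2 j hj

theorem L2 {B P : Set (Set X)} {c : Set (X × ℝ)} (h : Adm B P c) {V : Set X} (hV : V ∈ P)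
    {a : X} (ha : a ∈ V) : ∃ A ∈ W P c, a ∈ A.1 := by
  have : ∀ j : P, ∃ y, y ∈ j.1 := fun j => (h.2.2.2.2 j.1 j.2).2.1
  choose y y1 using this
  haveI := h.1.to_subtype
  have hf : (insert a (range y)).Finite := (finite_range y).insert a
  refine ⟨⟨insert a (range y), hf.isClosed, insert_nonempty _ _⟩, fin_mem hf ?_
    fun V hV => ⟨_, Or.inr ⟨⟨V, hV⟩, rfl⟩, y1 ⟨V, hV⟩⟩, Or.inl rfl⟩
  rintro _ (rfl | ⟨j, rfl⟩)
  · exact (h.2.2.2.2 V hV).2.2 ha
  · exact (h.2.2.2.2 j.1 j.2).2.2 (y1 j)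

theorem L2' {B P P' : Set (Set X)} {c c' : Set (X × ℝ)} (h : Adm B P c) (hW : W P c ⊆ W P' c')
    {V : Set X} (hV : V ∈ P) : V ⊆ K c' := by
  intro a ha
  obtain ⟨A, hA, haA⟩ := L2 h hV ha
  exact memK (hW hA).2 haA

theorem W_ne {B P : Set (Set X)} {c : Set (X × ℝ)} (h : Adm B P c) : (W P c).Nonempty := by
  obtain ⟨V, hV⟩ := h.2.1
  obtain ⟨a, ha⟩ := (h.2.2.2.2 V hV).2.1
  obtain ⟨A, hA, -⟩ := L2 h hV ha
  exact ⟨A, hA⟩

def clo (T : Set X) (hT : T.Nonempty) : CL X := ⟨closure T, isClosed_closure, hT.closure⟩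

theorem L3 {B P : Set (Set X)} {c : Set (X × ℝ)} (h : Adm B P c) (T : Set X) (hT : T.Nonempty)
    (hK : T ⊆ closure (K c)) (hP : ∀ V ∈ P, (T ∩ V).Nonempty) :
    clo T hT ∈ closure (W P c) := by
  rw [mem_closure_iff_nhds]
  intro U hU
  obtain ⟨O, c', a1, a2, a3, a4, a5⟩ := base hU
  have : ∀ j : (P ∪ O : Set (Set X)), ∃ y ∈ T, y ∈ j.1 := by
    rintro ⟨V, hV | hV⟩
    · exact hP V hV
    · obtain ⟨y, hy, hyV⟩ := a4.1 V hV
      obtain ⟨z, hz1, hz2⟩ := mem_closure_iff.1 hy V (a3 V hV) hyV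
      exact ⟨z, hz2, hz1⟩
  choose y y1 y2 using this
  haveI := (h.1.union a1).to_subtype
  haveI := (h.2.1.mono (subset_union_left (t := O))).to_subtype
  have b1 : rng y ∈ W O c' := fin_mem (finite_range _) (by
    rintro _ ⟨j, rfl⟩
    exact memK a4.2 (subset_closure (y1 j))) fun V hV =>
      ⟨_, ⟨⟨V, Or.inr hV⟩, rfl⟩, y2 ⟨V, Or.inr hV⟩⟩
  have ho : ∀ j : (P ∪ O : Set (Set X)), IsOpen j.1 := by
    rintro ⟨V, hV | hV⟩
    · exact (h.2.2.2.2 V hV).1
    · exact a3 V hV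
  have b2 : rng y ∈ closure (W P c) := tup y (fun j => j.1 ∩ K c)
    (fun j => (ho j).inter_closure ⟨y2 j, hK (y1 j)⟩) _ fun y' hy' =>
      fin_mem (finite_range _) (by
        rintro _ ⟨j, rfl⟩
        exact (hy' j).2) fun V hV => ⟨_, ⟨⟨V, Or.inl hV⟩, rfl⟩, (hy' ⟨V, Or.inl hV⟩).1⟩
  obtain ⟨A, hA1, hA2⟩ := mem_closure_iff.1 b2 _ (W_open a1 a2 a3) b1
  exact ⟨A, a5 hA1, hA2⟩

theorem adm_open {B P : Set (Set X)} {c : Set (X × ℝ)} (h : Adm B P c) : IsOpen (W P c) :=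
  W_open h.1 h.2.2.1 fun V hV => (h.2.2.2.2 V hV).1

theorem quasi {Y : Type} [TopologicalSpace Y] [RegularSpace Y] : QuasiRegular Y := by
  rintro U hU ⟨y, hy⟩
  obtain ⟨t, ht, htc, hts⟩ := exists_mem_nhds_isClosed_subset (hU.mem_nhds hy)
  exact ⟨interior t, isOpen_interior, ⟨y, mem_interior_iff_mem_nhds.2 ht⟩,
    (closure_minimal interior_subset htc).trans hts⟩

theorem tails {Y : Type} [TopologicalSpace Y] (h : Pseudocomplete Y) :
    ∃ P : ℕ → Set (Set Y), (∀ n, PiBase (P n)) ∧ ∀ (m : ℕ) (V : ℕ → Set Y),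
      (∀ k, V k ∈ P (m + k)) → (∀ k, closure (V (k + 1)) ⊆ V k) → (⋂ k, V k).Nonempty := by
  obtain ⟨hq, P, hP, hc⟩ := h
  refine ⟨fun n => {V | ∃ s : ℕ → Set Y, s n = V ∧ (∀ i ≤ n, s i ∈ P i) ∧
    ∀ i < n, closure (s (i + 1)) ⊆ s i}, fun n => ⟨?_, ?_⟩, ?_⟩
  · rintro _ ⟨s, rfl, h1, -⟩
    exact (hP n).1 _ (h1 n le_rfl)
  · intro U hU hne
    have step : ∀ (i : ℕ) (V : Set Y), IsOpen V → V.Nonempty → ∃ V' ∈ P i, closure V' ⊆ V := by
      intro i V h1 h2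
      obtain ⟨O, o1, o2, o3⟩ := hq V h1 h2
      obtain ⟨V', a, b⟩ := (hP i).2 O o1 o2
      exact ⟨V', a, (closure_mono b).trans o3⟩
    choose! nx n1 n2 using step
    let s : ℕ → Set Y := fun i => Nat.rec (nx 0 U) (fun i V => nx (i + 1) V) i
    have hs : ∀ i, s i ∈ P i ∧ s i ⊆ U := by
      intro i
      induction i with
      | zero => exact ⟨n1 0 U hU hne, subset_closure.trans (n2 0 U hU hne)⟩
      | succ i ih =>
        have := (hP i).1 _ ih.1
        exact ⟨n1 _ _ this.1 this.2, subset_closure.trans ((n2 _ _ this.1 this.2).trans ih.2)⟩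
    refine ⟨s n, ⟨s, rfl, fun i _ => (hs i).1, fun i _ => ?_⟩, (hs n).2⟩
    have := (hP i).1 _ (hs i).1
    exact n2 _ _ this.1 this.2
  · intro m V hV hcl
    obtain ⟨s, s0, s1, s2⟩ := hV 0
    have hz : ∀ k, (if m + k ≤ m then s (m + k) else V (m + k - m)) = V k := by
      intro k
      rcases k with _ | k
      · rw [if_pos (by omega)]; exact s0
      · rw [if_neg (by omega), Nat.add_sub_cancel_left]
    obtain ⟨a, ha⟩ := hc (fun i => if i ≤ m then s i else V (i - m)) (by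
      intro i
      by_cases hi : i ≤ m
      · rw [if_pos hi]; exact s1 i hi
      · obtain ⟨k, rfl⟩ := Nat.exists_eq_add_of_le (not_le.1 hi).le
        rw [hz]
        obtain ⟨s', e, h1, -⟩ := hV k
        rw [← e]
        exact h1 _ le_rfl) (by
      intro i
      by_cases hi : i < m
      · rw [if_pos (show i + 1 ≤ m from hi), if_pos hi.le]; exact s2 i hi
      · obtain ⟨k, rfl⟩ := Nat.exists_eq_add_of_le (not_lt.1 hi)
        have := hz (k + 1)
        rw [← add_assoc] at this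
        rw [this, hz]
        exact hcl k)
    refine ⟨a, mem_iInter.2 fun k => ?_⟩
    have := mem_iInter.1 ha (m + k)
    rwa [hz] at this

theorem partA (h : Pseudocomplete X) : Pseudocomplete (CL X) := by
  haveI := reg (X := X)
  obtain ⟨Q, hQ, hc⟩ := tails h
  refine ⟨quasi, fun n => {U | ∃ P c, Adm (Q n) P c ∧ U = W P c}, fun n => ⟨?_, ?_⟩, ?_⟩
  · rintro _ ⟨P, c, h1, rfl⟩
    exact ⟨adm_open h1, W_ne h1⟩
  · rintro U hU ⟨A, hA⟩
    obtain ⟨P, c, a1, a2, -, -⟩ := refine_adm (hU.mem_nhds hA) (Q n) (fun _ _ => True) (by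
      intro a O o1 o2
      obtain ⟨V, b1, b2⟩ := (hQ n).2 O o1 ⟨a, o2⟩
      exact ⟨V, b1, ((hQ n).1 V b1).1, ((hQ n).1 V b1).2, b2, trivial⟩)
    exact ⟨_, ⟨P, c, a1, rfl⟩, a2⟩
  · intro U hU hcl
    choose P c hA hUe using hU
    have hanti : Antitone U := antitone_nat_of_succ_le fun n => subset_closure.trans (hcl n)
    have step : ∀ n, ∀ V ∈ P n, ∃ V' ∈ P (n + 1), closure V' ⊆ V := by
      intro n V hV
      refine L1 (hA (n + 1)) ?_
      rw [← hUe]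
      refine (hcl n).trans ?_
      rw [hUe]
      exact fun A hA => hA.1 V hV
    choose nx n1 n2 using step
    have hT : ∀ m, ∀ V ∈ P m, ((⋂ n, K (c n)) ∩ V).Nonempty := by
      intro m V hV
      let g : ∀ k : ℕ, {V // V ∈ P (m + k)} := fun k =>
        Nat.rec ⟨V, hV⟩ (fun k p => ⟨nx (m + k) p.1 p.2, n1 (m + k) p.1 p.2⟩) k
      obtain ⟨a, ha⟩ := hc m (fun k => (g k).1) (fun k => (hA (m + k)).2.2.2.1 (g k).2)
        (fun k => n2 (m + k) (g k).1 (g k).2)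
      refine ⟨a, mem_iInter.2 fun n => ?_, mem_iInter.1 ha 0⟩
      refine L2' (P' := P n) (hA (m + n)) ?_ (g n).2 (mem_iInter.1 ha n)
      rw [← hUe, ← hUe]
      exact hanti (Nat.le_add_left _ _)
    have hne : (⋂ n, K (c n)).Nonempty := by
      obtain ⟨V, hV⟩ := (hA 0).2.1
      exact (hT 0 V hV).mono inter_subset_left
    refine ⟨clo _ hne, mem_iInter.2 fun n => hcl n ?_⟩
    rw [hUe]
    exact L3 (hA (n + 1)) _ hne ((iInter_subset _ (n + 1)).trans subset_closure) (hT (n + 1))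

/-- a subbase of a subcompact base along which regular families have good points -/
theorem good (h : Subcompact X) : ∃ B : Set (Set X),
    (∀ a, ∀ O, IsOpen O → a ∈ O → ∃ V ∈ B, IsOpen V ∧ V.Nonempty ∧ V ⊆ O ∧ a ∈ V) ∧
    ∀ 𝒱 ⊆ B, (∀ V ∈ 𝒱, V.Nonempty) → (∀ V ∈ 𝒱, ∃ V' ∈ 𝒱, closure V' ⊆ V) → ∀ V ∈ 𝒱, ∃ a ∈ V,
      ∀ D : Set X, (∀ V ∈ 𝒱, ∃ V' ∈ 𝒱, V' ⊆ V ∩ D) → a ∈ closure D := by
  obtain ⟨-, B, hB, hc⟩ := h
  let r : Set X → Set X → Prop := WellOrderingRel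
  have hwo : IsWellOrder (Set X) r := WellOrderingRel.isWellOrder
  let S : ℕ → Set (Set X) := fun n =>
    {U | U ∈ B ∧ ∀ x ∈ U, ∀ y ∈ U, dist x y < 1 / ((n : ℝ) + 1)}
  let L : ℕ → Set (Set X) := fun n => {U | U ∈ S n ∧ ∀ U' ∈ S n, r U' U → ¬ U ⊆ U'}
  refine ⟨⋃ n, L n, ?_, ?_⟩
  · intro a O hO ha
    obtain ⟨ε, hε, hb⟩ := Metric.isOpen_iff.1 hO a ha
    obtain ⟨n, hn⟩ := exists_nat_one_div_lt hε
    have hp : (0 : ℝ) < 1 / ((n : ℝ) + 1) / 2 := by positivity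
    obtain ⟨U, u1, u2, u3⟩ := hB.exists_subset_of_mem_open (Metric.mem_ball_self (x := a) hp)
      Metric.isOpen_ball
    have hU : U ∈ S n := ⟨u1, fun x hx y hy => by
      have h1 : dist x a < _ := u3 hx
      have h2 : dist y a < _ := u3 hy
      have := dist_triangle_right x y a
      linarith⟩
    obtain ⟨U', ⟨v1, v2⟩, v3⟩ := hwo.wf.has_min {U' | U' ∈ S n ∧ U ⊆ U'} ⟨U, hU, subset_rfl⟩
    refine ⟨U', mem_iUnion.2 ⟨n, v1, fun U'' w1 w2 w3 => v3 U'' ⟨w1, v2.trans w3⟩ w2⟩,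
      hB.isOpen v1.1, ⟨a, v2 u2⟩, fun x hx => hb ?_, v2 u2⟩
    exact (v1.2 x hx a (v2 u2)).trans hn
  · intro 𝒱 h𝒱 hne hreg V0 hV0
    by_cases hmin : ∃ V ∈ 𝒱, V ⊆ V0 ∧ ∀ V' ∈ 𝒱, V' ⊆ V → V' = V
    · obtain ⟨V, v1, v2, v3⟩ := hmin
      obtain ⟨a, ha⟩ := hne V v1
      refine ⟨a, v2 ha, fun D hD => subset_closure ?_⟩
      obtain ⟨V', w1, w2⟩ := hD V v1
      rw [v3 V' w1 (w2.trans inter_subset_left)] at w2
      exact (w2 ha).2
    push Not at hmin
    have step : ∀ p : {V // V ∈ 𝒱 ∧ V ⊆ V0}, ∃ q : {V // V ∈ 𝒱 ∧ V ⊆ V0},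
        closure q.1 ⊆ p.1 ∧ ¬ p.1 ⊆ q.1 := by
      rintro ⟨V, v1, v2⟩
      obtain ⟨V', w1, w2, w3⟩ := hmin V v1 v2
      obtain ⟨V'', z1, z2⟩ := hreg V' w1
      exact ⟨⟨V'', z1, subset_closure.trans (z2.trans (w2.trans v2))⟩, z2.trans w2,
        fun h => w3 (w2.antisymm (h.trans (subset_closure.trans z2)))⟩
    choose nx n1 n2 using step
    let g : ℕ → {V // V ∈ 𝒱 ∧ V ⊆ V0} := fun k => nx^[k] ⟨V0, hV0, subset_rfl⟩
    have g1 : ∀ k, g (k + 1) = nx (g k) := fun k => Function.iterate_succ_apply' _ _ _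
    have ganti : Antitone fun k => (g k).1 := antitone_nat_of_succ_le fun k => by
      rw [g1]; exact subset_closure.trans (n1 _)
    have gstr : ∀ k l, k < l → ¬ (g k).1 ⊆ (g l).1 := fun k l hkl h =>
      n2 (g k) (by rw [← g1]; exact h.trans (ganti hkl))
    have hfin : ∀ j, {k | (g k).1 ∈ L j}.Finite := by
      intro j
      by_contra hinf
      have hinf' : {k | (g k).1 ∈ L j}.Infinite := hinf
      obtain ⟨_, ⟨k, hk, rfl⟩, hm⟩ := hwo.wf.has_min ((fun k => (g k).1) '' {k | (g k).1 ∈ L j})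
        (hinf'.nonempty.image _)
      obtain ⟨l, hl, hkl⟩ := hinf'.exists_gt k
      rcases trichotomous_of r (g l).1 (g k).1 with h | h | h
      · exact hm _ ⟨l, hl, rfl⟩ h
      · exact gstr k l hkl h.symm.subset
      · exact hl.2 _ hk.1 h (ganti hkl.le)
    obtain ⟨a, ha⟩ := hc (range fun k => (g k).1) (by
        rintro _ ⟨k, rfl⟩
        obtain ⟨j, hj⟩ := mem_iUnion.1 (h𝒱 (g k).2.1)
        exact hj.1.1) (range_nonempty _) (by
        rintro _ ⟨k, rfl⟩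
        exact hne _ (g k).2.1) (by
        rintro _ ⟨k, rfl⟩ _ ⟨l, rfl⟩
        exact ⟨_, ⟨max k l, rfl⟩, subset_inter (ganti (le_max_left _ _)) (ganti (le_max_right _ _))⟩)
      (by
        rintro _ ⟨k, rfl⟩
        refine ⟨(g (k + 1)).1, ⟨k + 1, rfl⟩, ?_⟩
        rw [g1]
        exact n1 _)
    have ha' : ∀ k, a ∈ (g k).1 := fun k => ha _ ⟨k, rfl⟩
    refine ⟨a, ha' 0, fun D hD => Metric.mem_closure_iff.2 fun ε hε => ?_⟩
    obtain ⟨n, hn⟩ := exists_nat_one_div_lt hε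
    obtain ⟨k, hk⟩ := ((finite_lt_nat n).biUnion fun j _ => hfin j).exists_notMem
    obtain ⟨j, hj⟩ := mem_iUnion.1 (h𝒱 (g k).2.1)
    have hnj : n ≤ j := not_lt.1 fun h => hk (mem_biUnion h hj)
    obtain ⟨V', w1, w2⟩ := hD _ (g k).2.1
    obtain ⟨b, hb⟩ := hne V' w1
    refine ⟨b, (w2 hb).2, ?_⟩
    exact (hj.1.2 a (ha' k) b (w2 hb).1).trans_le ((Nat.one_div_le_one_div hnj).trans hn.le)

theorem partB (h : Subcompact X) : Subcompact (CL X) := by
  obtain ⟨B, hB, hg⟩ := good h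
  refine ⟨reg, {U | ∃ P c, Adm B P c ∧ U = W P c}, isTopologicalBasis_of_isOpen_of_nhds ?_ ?_, ?_⟩
  · rintro _ ⟨P, c, h1, rfl⟩
    exact adm_open h1
  · intro A U hA hU
    obtain ⟨P, c, a1, a2, a3, a4⟩ := refine_adm (hU.mem_nhds hA) B (fun a V => a ∈ V) hB
    exact ⟨_, ⟨P, c, a1, rfl⟩, ⟨a3, a4⟩, a2⟩
  · intro F hF hne _ hdir hreg
    have hF' : ∀ U : Set (CL X), ∃ (P : Set (Set X)) (c : Set (X × ℝ)),
        U ∈ F → Adm B P c ∧ U = W P c := by
      intro U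
      by_cases hU : U ∈ F
      · obtain ⟨P, c, h⟩ := hF hU
        exact ⟨P, c, fun _ => h⟩
      · exact ⟨∅, ∅, fun h => absurd h hU⟩
    choose P c hPc using hF'
    have hA : ∀ {U}, U ∈ F → Adm B (P U) (c U) := fun h => (hPc _ h).1
    have hUe : ∀ {U}, U ∈ F → U = W (P U) (c U) := fun h => (hPc _ h).2
    have hit : ∀ U ∈ F, ∀ V ∈ P U, U ⊆ Hit V := fun U hU V hV A hAU => by
      rw [hUe hU] at hAU
      exact hAU.1 V hV
    have hT : ∀ U ∈ F, ∀ V ∈ P U, ((⋂ U ∈ F, closure (K (c U))) ∩ V).Nonempty := by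
      intro U hU V hV
      obtain ⟨a, ha, hD⟩ := hg (⋃ U ∈ F, P U) (iUnion₂_subset fun U hU => (hA hU).2.2.2.1) (by
        intro V hV
        obtain ⟨U, hU, hV⟩ := mem_iUnion₂.1 hV
        exact ((hA hU).2.2.2.2 V hV).2.1) (by
        intro V hV
        obtain ⟨U, hU, hV⟩ := mem_iUnion₂.1 hV
        obtain ⟨U', hU', hcl⟩ := hreg U hU
        obtain ⟨V', v1, v2⟩ := L1 (hA hU') (V := V) (by
          rw [← hUe hU']; exact hcl.trans (hit U hU V hV))
        exact ⟨V', mem_biUnion hU' v1, v2⟩) V (mem_biUnion hU hV)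
      refine ⟨a, mem_iInter₂.2 fun U0 hU0 => hD _ fun V hV => ?_, ha⟩
      obtain ⟨U, hU, hV⟩ := mem_iUnion₂.1 hV
      obtain ⟨U', hU', hs⟩ := hdir U hU U0 hU0
      obtain ⟨V', v1, v2⟩ := L1' (hA hU') (V := V) (by
        rw [← hUe hU']; exact hs.trans (inter_subset_left.trans (hit U hU V hV)))
      refine ⟨V', mem_biUnion hU' v1, subset_inter v2 (L2' (P' := P U0) (hA hU') ?_ v1)⟩
      rw [← hUe hU', ← hUe hU0]
      exact hs.trans inter_subset_right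
    have hne' : (⋂ U ∈ F, closure (K (c U))).Nonempty := by
      obtain ⟨U, hU⟩ := hne
      obtain ⟨V, hV⟩ := (hA hU).2.1
      exact (hT U hU V hV).mono inter_subset_left
    refine ⟨clo _ hne', fun U hU => ?_⟩
    obtain ⟨U', hU', hcl⟩ := hreg U hU
    refine hcl ?_
    rw [hUe hU']
    exact L3 (hA hU') _ hne' (biInter_subset_of_mem hU') (hT U' hU')

/-- neighbourhoods contain all smaller sets that stay close to finitely many points -/
theorem base' {A : CL X} {U : Set (CL X)} (hU : U ∈ 𝓝 A) : ∃ F : Set X, F.Finite ∧ F ⊆ A.1 ∧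
    ∃ m : ℕ, ∀ A' : CL X, A'.1 ⊆ A.1 → (∀ a ∈ F, ∃ a' ∈ A'.1, dist a a' ≤ (1 / 2 : ℝ) ^ m) →
      A' ∈ U := by
  obtain ⟨O, c, a1, a2, a3, a4, a5⟩ := base hU
  have : ∀ V ∈ O, ∃ a ∈ A.1, ∃ m : ℕ, ∀ y, dist a y ≤ (1 / 2 : ℝ) ^ m → y ∈ V := by
    intro V hV
    obtain ⟨a, ha, haV⟩ := a4.1 V hV
    obtain ⟨ε, hε, hb⟩ := Metric.isOpen_iff.1 (a3 V hV) a haV
    obtain ⟨m, hm⟩ := exists_pow_lt_of_lt_one hε (show (1 / 2 : ℝ) < 1 by norm_num)
    exact ⟨a, ha, m, fun y hy => hb (by rw [Metric.mem_ball, dist_comm]; exact hy.trans_lt hm)⟩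
  choose a ha m hm using this
  haveI := a1.to_subtype
  obtain ⟨M, hM⟩ := (finite_range fun V : O => m V.1 V.2).bddAbove
  refine ⟨range fun V : O => a V.1 V.2, finite_range _, ?_, M, fun A' h1 h2 => a5 ⟨?_, ?_⟩⟩
  · rintro _ ⟨V, rfl⟩
    exact ha _ _
  · intro V hV
    obtain ⟨a', b1, b2⟩ := h2 _ ⟨⟨V, hV⟩, rfl⟩
    exact ⟨a', b1, hm V hV a' (b2.trans
      (pow_le_pow_of_le_one (by norm_num) (by norm_num) (hM ⟨⟨V, hV⟩, rfl⟩)))⟩
  · exact fun p hp => (a4.2 p hp).trans_le (Metric.infDist_le_infDist_of_subset h1 A'.2.2)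

end General

/-- sequences with the first-difference metric -/
def Y : Type := ℕ → ℝ × ℕ

noncomputable instance mY : MetricSpace Y where
  dist x y := (PiNat.dist (E := fun _ => ℝ × ℕ)).dist x y
  dist_self := PiNat.dist_self
  dist_comm := PiNat.dist_comm
  dist_triangle := PiNat.dist_triangle
  eq_of_dist_eq_zero := PiNat.eq_of_dist_eq_zero _ _

theorem Y_le_one (x y : Y) : dist x y ≤ 1 := PiNat.dist_le_one (E := fun _ => ℝ × ℕ) x y

theorem Y_eq {x y : Y} {n : ℕ} (h : dist x y < (1 / 2) ^ n) {i : ℕ} (hi : i ≤ n) : x i = y i :=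
  PiNat.apply_eq_of_dist_lt (E := fun _ => ℝ × ℕ) h hi

theorem Y_cyl {x y : Y} {n : ℕ} : (∀ i < n, y i = x i) ↔ dist y x ≤ (1 / 2) ^ n :=
  PiNat.mem_cylinder_iff_dist_le (E := fun _ => ℝ × ℕ)

theorem inf_le_one (y : Y) (C : Set Y) : Metric.infDist y C ≤ 1 := by
  rcases C.eq_empty_or_nonempty with rfl | ⟨a, ha⟩
  · simp
  · exact (Metric.infDist_le_dist_of_mem ha).trans (Y_le_one _ _)

/-- the sequences together with one antipode for every set of sequences -/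
inductive Z : Type
  | pt : Y → Z
  | an : Set Y → Z

open Classical in
noncomputable def dZ : Z → Z → ℝ
  | Z.pt x, Z.pt y => dist x y
  | Z.pt x, Z.an C => 2 - Metric.infDist x C
  | Z.an C, Z.pt x => 2 - Metric.infDist x C
  | Z.an C, Z.an D => if C = D then 0 else 1

noncomputable instance mZ : MetricSpace Z where
  dist := dZ
  dist_self := by
    rintro (x | C)
    · exact dist_self x
    · simp [dZ]
  dist_comm := by
    rintro (x | C) (y | D)
    · exact dist_comm x y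
    · rfl
    · rfl
    · simp only [dZ, eq_comm]
  dist_triangle := by
    rintro (x | C) (y | D) (z | E) <;> simp only [dZ]
    · exact dist_triangle x y z
    · have := Metric.infDist_le_infDist_add_dist (x := y) (y := x) (s := E)
      rw [dist_comm] at this
      linarith
    · have := Y_le_one x z
      have := inf_le_one x D
      have := inf_le_one z D
      linarith
    · have := inf_le_one x D
      have := Metric.infDist_nonneg (x := x) (s := E)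
      split_ifs with h
      · subst h; linarith
      · linarith
    · have := Metric.infDist_le_infDist_add_dist (x := y) (y := z) (s := C)
      linarith
    · have := inf_le_one y C
      have := inf_le_one y E
      split_ifs <;> linarith
    · have := inf_le_one z D
      have := Metric.infDist_nonneg (x := z) (s := C)
      split_ifs with h
      · subst h; linarith
      · linarith
    · split_ifs with h1 h2 h3 h4 h5 h6 h7 <;> first | linarith | exact absurd (h5.trans h6) h1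
  eq_of_dist_eq_zero := by
    rintro (x | C) (y | D) h <;> simp only [dZ] at h
    · rw [eq_of_dist_eq_zero h]
    · have := inf_le_one x D
      linarith
    · have := inf_le_one y C
      linarith
    · split_ifs at h with h1
      · rw [h1]
      · norm_num at h

theorem d_pp (x y : Y) : dist (Z.pt x) (Z.pt y) = dist x y := rfl
theorem d_ap (C : Set Y) (y : Y) : dist (Z.an C) (Z.pt y) = 2 - Metric.infDist y C := rfl

theorem d_a (C : Set Y) (z : Z) (h : dist (Z.an C) z < 1) : z = Z.an C := by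
  rcases z with y | D
  · rw [d_ap] at h
    have := inf_le_one y C
    linarith
  · by_contra hne
    have h1 : C ≠ D := fun e => hne (by rw [e])
    have : dist (Z.an C) (Z.an D) = 1 := if_neg h1
    linarith

theorem d_aa (C D : Set Y) : dist (Z.an C) (Z.an D) ≤ 1 := by
  show dZ _ _ ≤ 1
  simp only [dZ]
  split_ifs <;> norm_num

theorem d_p (x : Y) (z : Z) (h : dist (Z.pt x) z < 1) : ∃ y, z = Z.pt y := by
  rcases z with y | D
  · exact ⟨y, rfl⟩
  · rw [dist_comm] at h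
    exact absurd (d_a D _ h) (by simp)

theorem half_le (n : ℕ) : (1 / 2 : ℝ) ^ n ≤ 1 := pow_le_one₀ (by norm_num) (by norm_num)

/-- a set of sequences determined by the coordinates up to m gives a clopen set -/
theorem det_open (S : Set Y) (m : ℕ) (hS : ∀ x y : Y, (∀ i ≤ m, x i = y i) → x ∈ S → y ∈ S) :
    IsOpen (Z.pt '' S) ∧ IsClosed (Z.pt '' S) := by
  have hp : (0 : ℝ) < (1 / 2) ^ m := by positivity
  constructor
  · rw [Metric.isOpen_iff]
    rintro _ ⟨x, hx, rfl⟩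
    refine ⟨_, hp, fun z hz => ?_⟩
    rw [Metric.mem_ball, dist_comm] at hz
    obtain ⟨y, rfl⟩ := d_p x z (hz.trans_le (half_le m))
    exact ⟨y, hS x y (fun i hi => Y_eq hz hi) hx, rfl⟩
  · refine isClosed_of_closure_subset fun z hz => ?_
    obtain ⟨_, ⟨x, hx, rfl⟩, h⟩ := Metric.mem_closure_iff.1 hz _ hp
    rw [dist_comm] at h
    obtain ⟨y, rfl⟩ := d_p x z (h.trans_le (half_le m))
    exact ⟨y, hS x y (fun i hi => Y_eq h hi) hx, rfl⟩

theorem Z_bc : BaseCompact Z := by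
  classical
  refine ⟨inferInstance, {U | (∃ C, U = {Z.an C}) ∨
    ∃ (x : Y) (n : ℕ), U = Z.pt '' {y | ∀ i < n, y i = x i}},
    isTopologicalBasis_of_isOpen_of_nhds ?_ ?_, ?_⟩
  · rintro _ (⟨C, rfl⟩ | ⟨x, n, rfl⟩)
    · rw [Metric.isOpen_iff]
      rintro _ rfl
      refine ⟨1, one_pos, fun z hz => d_a C z ?_⟩
      rwa [Metric.mem_ball, dist_comm] at hz
    · exact (det_open {y | ∀ i < n, y i = x i} n fun a b h ha i hi =>
        (h i hi.le).symm.trans (ha i hi)).1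
  · rintro (x | C) U hx hU
    · obtain ⟨ε, hε, hb⟩ := Metric.isOpen_iff.1 hU _ hx
      obtain ⟨m, hm⟩ := exists_pow_lt_of_lt_one hε (show (1 / 2 : ℝ) < 1 by norm_num)
      refine ⟨_, Or.inr ⟨x, m, rfl⟩, ⟨x, fun _ _ => rfl, rfl⟩, ?_⟩
      rintro _ ⟨y, hy, rfl⟩
      exact hb ((Y_cyl.1 hy).trans_lt hm)
    · exact ⟨_, Or.inl ⟨C, rfl⟩, rfl, singleton_subset_iff.2 hx⟩
  · intro 𝒞 h𝒞 hc
    have pair : ∀ U ∈ 𝒞, ∀ V ∈ 𝒞, (U ∩ V).Nonempty := fun U hU V hV => by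
      have := hc {U, V} (insert_subset hU (singleton_subset_iff.2 hV)) (toFinite _)
      rwa [sInter_pair] at this
    by_cases h1 : ∃ C, ({Z.an C} : Set Z) ∈ 𝒞
    · obtain ⟨C, hC⟩ := h1
      refine ⟨Z.an C, mem_iInter₂.2 fun U hU => subset_closure ?_⟩
      obtain ⟨_, rfl, h⟩ := pair _ hC U hU
      exact h
    · let G : ℕ → ℝ × ℕ → Prop := fun i v => ∃ (x : Y) (n : ℕ),
        Z.pt '' {y | ∀ i < n, y i = x i} ∈ 𝒞 ∧ i < n ∧ x i = v
      let a : Y := fun i => if h : ∃ v, G i v then h.choose else (0, 0)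
      refine ⟨Z.pt a, mem_iInter₂.2 fun U hU => subset_closure ?_⟩
      rcases h𝒞 hU with ⟨C, rfl⟩ | ⟨x, n, rfl⟩
      · exact absurd ⟨C, hU⟩ h1
      · refine ⟨a, fun i hi => ?_, rfl⟩
        have h : ∃ v, G i v := ⟨x i, x, n, hU, hi, rfl⟩
        have e : a i = h.choose := dif_pos h
        obtain ⟨x', n', b1, b2, b3⟩ := h.choose_spec
        obtain ⟨_, ⟨y, hy, rfl⟩, y', hy', hyy⟩ := pair _ hU _ b1
        have : y' = y := Z.pt.inj hyy
        subst this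
        rw [e, ← b3, ← hy i hi, hy' i b2]

def T (m : ℕ) (k : ℝ → ℕ) : Set Y := {y | k (y 0).1 ≤ (y m).2}

theorem T_det (m : ℕ) (k : ℝ → ℕ) (x y : Y) (h : ∀ i ≤ m, x i = y i) (hx : x ∈ T m k) :
    y ∈ T m k := by
  show k (y 0).1 ≤ (y m).2
  rw [← h 0 (Nat.zero_le _), ← h m le_rfl]
  exact hx

theorem T_dense (m : ℕ) (k : ℝ → ℕ) (x : Y) : ∃ y ∈ T m k, dist x y ≤ (1 / 2) ^ m := by
  refine ⟨Function.update x m ((x m).1, k (x 0).1), ?_, ?_⟩
  · have h0 : (Function.update x m ((x m).1, k (x 0).1) 0).1 = (x 0).1 := by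
      by_cases h : 0 = m
      · subst h; rw [Function.update_self]
      · rw [Function.update_of_ne h]
    show k (Function.update x m ((x m).1, k (x 0).1) 0).1 ≤
      (Function.update x m ((x m).1, k (x 0).1) m).2
    rw [h0, Function.update_self]
  · exact Y_cyl.1 fun i hi => (Function.update_of_ne hi.ne _ _).symm

def AT (m : ℕ) (k : ℝ → ℕ) : CL Z :=
  ⟨Z.pt '' T m k, (det_open _ m (T_det m k)).2, by
    obtain ⟨y, hy, -⟩ := T_dense m k (fun _ => (0, 0))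
    exact ⟨_, y, hy, rfl⟩⟩

def pa (α : ℝ) : Y := fun _ => (α, 0)

theorem partC : ¬ BaseCompact (CL Z) := by
  classical
  rintro ⟨-, B, hB, hc⟩
  have s1 : ∀ α : ℝ, ∃ U ∈ B, U ⊆ {A | Metric.infDist (Z.pt (pa α)) A.1 < 1 / 2} ∧
      ∃ m, ∀ k, AT m k ∈ U := by
    intro α
    obtain ⟨U, u1, u2, u3⟩ := hB.exists_subset_of_mem_open (a := AT 0 fun _ => 0)
      (u := {A | Metric.infDist (Z.pt (pa α)) A.1 < 1 / 2}) (by
        show Metric.infDist _ (AT 0 fun _ => 0).1 < 1 / 2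
        have : Z.pt (pa α) ∈ (AT 0 fun _ => 0).1 := ⟨_, Nat.zero_le _, rfl⟩
        rw [Metric.infDist_zero_of_mem this]
        norm_num) (isOpen_lt (cont _) continuous_const)
    obtain ⟨F, -, f2, m, hm⟩ := base' ((hB.isOpen u1).mem_nhds u2)
    refine ⟨U, u1, u3, m, fun k => hm _ ?_ fun a ha => ?_⟩
    · rintro _ ⟨y, -, rfl⟩
      exact ⟨y, Nat.zero_le _, rfl⟩
    · obtain ⟨x, -, rfl⟩ := f2 ha
      obtain ⟨y, hy, h⟩ := T_dense m k x
      exact ⟨_, ⟨y, hy, rfl⟩, h⟩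
  choose U0 a1 a2 mm a3 using s1
  obtain ⟨m, hm⟩ : ∃ m, ¬ {α | mm α = m}.Countable := by
    by_contra h
    push Not at h
    refine Set.not_countable_univ (α := ℝ) ((countable_iUnion h).mono fun α _ => ?_)
    exact mem_iUnion.2 ⟨mm α, rfl⟩
  have hp : (0 : ℝ) < (1 / 2) ^ m := by positivity
  have s2 : ∀ k : ℝ → ℕ, ∃ U ∈ B,
      U ⊆ {A | 2 - (1 / 2 : ℝ) ^ m / 2 < Metric.infDist (Z.an (T m k)) A.1} ∧
      ∃ S : Set ℝ, S.Finite ∧ ∀ k', k ≤ k' → (∀ α ∈ S, k' α = k α) → AT m k' ∈ U := by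
    intro k
    obtain ⟨U, u1, u2, u3⟩ := hB.exists_subset_of_mem_open (a := AT m k)
      (u := {A | 2 - (1 / 2 : ℝ) ^ m / 2 < Metric.infDist (Z.an (T m k)) A.1}) (by
        refine lt_of_lt_of_le (show _ < (2 : ℝ) by linarith) ((Metric.le_infDist (AT m k).2.2).2 ?_)
        rintro _ ⟨y, hy, rfl⟩
        rw [d_ap, Metric.infDist_zero_of_mem hy, sub_zero]) (isOpen_lt continuous_const (cont _))
    obtain ⟨F, f1, f2, m', hm'⟩ := base' ((hB.isOpen u1).mem_nhds u2)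
    refine ⟨U, u1, u3, (fun y : Y => (y 0).1) '' (Z.pt ⁻¹' F),
      (f1.preimage fun _ _ _ _ h => Z.pt.inj h).image _, fun k' h1 h2 => hm' _ ?_ fun a ha => ?_⟩
    · rintro _ ⟨y, hy, rfl⟩
      exact ⟨y, (h1 _).trans hy, rfl⟩
    · obtain ⟨x, hx, rfl⟩ := f2 ha
      refine ⟨_, ⟨x, ?_, rfl⟩, by rw [dist_self]; positivity⟩
      show k' (x 0).1 ≤ (x m).2
      rw [h2 _ ⟨x, ha, rfl⟩]
      exact hx
  choose U1 b1 b2 S b3 b4 using s2
  let st : ℕ → (ℝ → ℕ) × Set ℝ := fun i => Nat.rec (fun _ => 0, ∅)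
    (fun i p => (fun α => if α ∈ p.2 ∪ S p.1 then p.1 α else i + 1, p.2 ∪ S p.1)) i
  have e1 : ∀ i α, (st (i + 1)).1 α =
      if α ∈ (st i).2 ∪ S (st i).1 then (st i).1 α else i + 1 := fun _ _ => rfl
  have e2 : ∀ i, (st (i + 1)).2 = (st i).2 ∪ S (st i).1 := fun _ => rfl
  have c1 : ∀ i α, (st i).1 α ≤ i := by
    intro i α
    induction i with
    | zero => exact le_rfl
    | succ i ih => rw [e1]; split_ifs <;> omega
  have c2 : Monotone fun i => (st i).1 := monotone_nat_of_le_succ fun i α => by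
    show (st i).1 α ≤ (st (i + 1)).1 α
    have := c1 i α
    rw [e1]; split_ifs <;> omega
  have c3 : Monotone fun i => (st i).2 := monotone_nat_of_le_succ fun i => by
    show (st i).2 ⊆ (st (i + 1)).2
    rw [e2]; exact subset_union_left
  have c4 : ∀ i j, i ≤ j → ∀ α ∈ S (st i).1, (st j).1 α = (st i).1 α := by
    intro i j hij α hα
    induction hij with
    | refl => rfl
    | @step j hij ih =>
      rw [e1, if_pos, ih]
      rw [← e2]
      exact c3 (Nat.succ_le_succ hij) (Or.inr hα)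
  have c5 : ∀ i, (st i).2.Finite := by
    intro i
    induction i with
    | zero => exact finite_empty
    | succ i ih => exact ih.union (b3 _)
  obtain ⟨α, hα1, hα2⟩ : ∃ α, mm α = m ∧ α ∉ ⋃ i, (st i).2 := by
    by_contra h
    push Not at h
    exact hm ((countable_iUnion fun i => (c5 i).countable).mono h)
  have c6 : ∀ i, (st i).1 α = i := by
    intro i
    cases i with
    | zero => rfl
    | succ i =>
      rw [e1, if_neg]
      rw [← e2]
      exact fun h => hα2 (mem_iUnion.2 ⟨i + 1, h⟩)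
  obtain ⟨A, hA⟩ := hc (insert (U0 α) (range fun i => U1 (st i).1)) (by
      rintro _ (rfl | ⟨i, rfl⟩)
      · exact a1 α
      · exact b1 _) (by
      intro t ht hf
      have : ∀ U ∈ t, ∀ᶠ j in atTop, AT m (st j).1 ∈ U := by
        intro U hU
        rcases ht hU with rfl | ⟨i, rfl⟩
        · exact Eventually.of_forall fun j => by rw [← hα1]; exact a3 α _
        · exact (eventually_ge_atTop i).mono fun j hj => b4 _ _ (c2 hj) (c4 i j hj)
      obtain ⟨j, hj⟩ := ((eventually_all_finite hf).2 this).exists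
      exact ⟨_, hj⟩)
  have h1 : Metric.infDist (Z.pt (pa α)) A.1 ≤ 1 / 2 :=
    closure_minimal (t := {A : CL Z | Metric.infDist (Z.pt (pa α)) A.1 ≤ 1 / 2})
      (fun A h => le_of_lt (a := Metric.infDist (Z.pt (pa α)) A.1) (a2 α h)) (isClosed_le (cont _) continuous_const) (mem_iInter₂.1 hA _ (Or.inl rfl))
  obtain ⟨z, hz, hd⟩ := (Metric.infDist_lt_iff A.2.2).1 (h1.trans_lt (show _ < (1 : ℝ) by norm_num))
  obtain ⟨y, rfl⟩ := d_p _ z hd
  have hy0 : (y 0).1 = α := by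
    have : pa α 0 = y 0 := Y_eq (n := 0) (by rw [pow_zero]; exact hd) le_rfl
    rw [← this]
    rfl
  have h2 : 2 - (1 / 2 : ℝ) ^ m / 2 ≤ Metric.infDist (Z.an (T m (st ((y m).2 + 1)).1)) A.1 :=
    closure_minimal (t := {A : CL Z | 2 - (1 / 2 : ℝ) ^ m / 2 ≤
      Metric.infDist (Z.an (T m (st ((y m).2 + 1)).1)) A.1}) 
      (fun A h => le_of_lt (a := 2 - (1 / 2 : ℝ) ^ m / 2) (b2 _ h))
      (isClosed_le continuous_const (cont _)) (mem_iInter₂.1 hA _ (Or.inr ⟨(y m).2 + 1, rfl⟩))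
  have h3 := h2.trans (Metric.infDist_le_dist_of_mem hz)
  rw [d_ap] at h3
  obtain ⟨y0, hy0', -⟩ := T_dense m (st ((y m).2 + 1)).1 y
  obtain ⟨x, hx, hxy⟩ := (Metric.infDist_lt_iff ⟨y0, hy0'⟩).1
    (show Metric.infDist y (T m (st ((y m).2 + 1)).1) < (1 / 2) ^ m by linarith)
  have h4 : (st ((y m).2 + 1)).1 (y 0).1 ≤ (y m).2 :=
    T_det m _ x y (fun i hi => (Y_eq hxy hi).symm) hx
  rw [hy0] at h4
  have h5 := (c6 ((y m).2 + 1)).symm.trans_le h4
  omega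

theorem result :
    (∀ (X : Type) [MetricSpace X], Pseudocomplete X → Pseudocomplete (CL X)) ∧
    (∀ (X : Type) [MetricSpace X], Subcompact X → Subcompact (CL X) ∧ T2Space (CL X)) ∧
    ¬ (∀ (X : Type) [MetricSpace X], BaseCompact X → BaseCompact (CL X)) :=
  ⟨fun _ _ => partA, fun _ _ h => ⟨partB h, haus⟩, fun h => partC (h Z Z_bc)⟩

end Pool.Agent.Results.MP_091b66_gt.Main
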